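import Pool.Agent.Helper71.PY.Goals

set_option autoImplicit false

namespace Pool.Agent.Helper67.PY

open Pool.Agent.Helper71.PY Matrix

/-- `z` becomes an element of `R` after multiplication by some `s` prime to `π`. -/
def InO (R : Type) {K : Type} [CommRing R] [Field K] [Algebra R K] (π : R) (z : K) : Prop :=
  ∃ s : R, ¬ π ∣ s ∧ IntK R (algebraMap R K s * z)

section

variable {R K : Type} [CommRing R] [Field K] [Algebra R K]

theorem intK_add {a b : K} (ha : IntK R a) (hb : IntK R b) : IntK R (a + b) := by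
  obtain ⟨r, rfl⟩ := ha
  obtain ⟨s, rfl⟩ := hb
  exact ⟨r + s, by simp⟩

theorem intK_zero : IntK R (0 : K) := ⟨0, by simp⟩

theorem intK_smul {a : K} (r : R) (ha : IntK R a) : IntK R (algebraMap R K r * a) := by
  obtain ⟨s, rfl⟩ := ha
  exact ⟨r * s, by simp⟩

theorem inO_zero {π : R} (hπ : Prime π) : InO R π (0 : K) :=
  ⟨1, fun h => hπ.not_isUnit (isUnit_of_dvd_one h), by simpa using (intK_zero (R := R) (K := K))⟩

theorem inO_one {π : R} (hπ : Prime π) : InO R π (1 : K) :=
  ⟨1, fun h => hπ.not_isUnit (isUnit_of_dvd_one h), ⟨1, by simp⟩⟩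

theorem inO_mul {π : R} (hπ : Prime π) {a b : K} (ha : InO R π a) (hb : InO R π b) :
    InO R π (a * b) := by
  obtain ⟨s, hs, r, hr⟩ := ha
  obtain ⟨s', hs', r', hr'⟩ := hb
  refine ⟨s * s', fun h => ?_, r * r', ?_⟩
  · rcases hπ.dvd_or_dvd h with h | h
    · exact hs h
    · exact hs' h
  · rw [map_mul, hr, hr', map_mul]
    ring

theorem inO_common {π : R} (hπ : Prime π) {ι : Type} [Fintype ι] (z : ι → K)
    (hz : ∀ i, InO R π (z i)) :
    ∃ s : R, ¬ π ∣ s ∧ ∀ i, IntK R (algebraMap R K s * z i) := by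
  classical
  choose s hs hr using hz
  refine ⟨∏ i, s i, fun h => ?_, fun i => ?_⟩
  · obtain ⟨i, -, hi⟩ := hπ.exists_mem_finset_dvd h
    exact hs i hi
  · have : (∏ j, s j) = (∏ j ∈ Finset.univ.erase i, s j) * s i := by
      rw [mul_comm, Finset.mul_prod_erase _ _ (Finset.mem_univ i)]
    rw [this, map_mul, mul_assoc]
    exact intK_smul _ (hr i)

end

theorem inO_total {R : Type} [CommRing R] [IsDomain R] [IsNoetherianRing R] {K : Type} [Field K]
    [Algebra R K] [IsFractionRing R K] {π : R} (hπ : Prime π) (z : K) (hz : z ≠ 0) :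
    InO R π z ∨ InO R π z⁻¹ := by
  obtain ⟨a, b, hb, rfl⟩ := IsFractionRing.div_surjective (A := R) z
  have hb0 : b ≠ 0 := nonZeroDivisors.ne_zero hb
  have ha0 : a ≠ 0 := by
    rintro rfl
    simp at hz
  obtain ⟨k, a', ha', rfl⟩ := WfDvdMonoid.max_power_factor ha0 hπ.irreducible
  obtain ⟨l, b', hb', rfl⟩ := WfDvdMonoid.max_power_factor hb0 hπ.irreducible
  have hπ0 : algebraMap R K π ≠ 0 := by
    rw [Ne, FaithfulSMul.algebraMap_eq_zero_iff]
    exact hπ.ne_zero
  have hb'0 : algebraMap R K b' ≠ 0 := by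
    rw [Ne, FaithfulSMul.algebraMap_eq_zero_iff]
    rintro rfl
    simp at hb0
  have ha'0 : algebraMap R K a' ≠ 0 := by
    rw [Ne, FaithfulSMul.algebraMap_eq_zero_iff]
    rintro rfl
    simp at ha0
  rcases le_total l k with h | h
  · left
    refine ⟨b', hb', π ^ (k - l) * a', ?_⟩
    obtain ⟨m, rfl⟩ := Nat.exists_eq_add_of_le h
    simp only [map_mul, map_pow, Nat.add_sub_cancel_left, pow_add]
    field_simp
  · right
    refine ⟨a', ha', π ^ (l - k) * b', ?_⟩
    obtain ⟨m, rfl⟩ := Nat.exists_eq_add_of_le h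
    simp only [map_mul, map_pow, Nat.add_sub_cancel_left, pow_add]
    field_simp

theorem exists_least {α : Type} (r : α → α → Prop) (tot : ∀ a b, r a b ∨ r b a)
    (tr : ∀ a b c, r a b → r b c → r a c) (s : Finset α) (hs : s.Nonempty) :
    ∃ m ∈ s, ∀ x ∈ s, r m x := by
  classical
  induction hs using Finset.Nonempty.cons_induction with
  | singleton a => exact ⟨a, by simp, by simpa using (tot a a)⟩
  | cons a s ha hs ih =>
    obtain ⟨m, hm, h⟩ := ih
    rcases tot a m with h1 | h1
    · refine ⟨a, by simp, fun x hx => ?_⟩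
      rcases Finset.mem_cons.1 hx with rfl | hx
      · simpa using (tot x x)
      · exact tr _ _ _ h1 (h x hx)
    · refine ⟨m, by simp [hm], fun x hx => ?_⟩
      rcases Finset.mem_cons.1 hx with rfl | hx
      · exact h1
      · exact h x hx

theorem vecMul_inv_apply {K : Type} [Field K] {n : ℕ} (A : Matrix (Fin n) (Fin n) K)
    (v : Fin n → K) (i : Fin n) :
    (v ᵥ* A⁻¹) i = (A.updateRow i v).det / A.det := by
  rw [← cramer_transpose_apply, cramer_eq_adjugate_mulVec, inv_def, vecMul_smul,
    Ring.inverse_eq_inv', ← adjugate_transpose, mulVec_transpose]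
  simp [div_eq_inv_mul]

theorem dd (_h : G_DVR) : G_DD := by
  classical
  intro R _ _ _ K _ _ _ π hπ n d hd Λ hfg hfull w hw
  obtain ⟨N, g, hg⟩ := Submodule.fg_iff_exists_fin_generating_family.1 hfg
  have hgmem : ∀ j, g j ∈ Λ := fun j => by
    rw [← hg]
    exact Submodule.subset_span ⟨j, rfl⟩
  -- the generators span over K
  have hspan : Submodule.span K (Set.range g) = ⊤ := by
    rw [eq_top_iff]
    intro v _
    obtain ⟨r, hr, hv⟩ := hfull v
    rw [← hg] at hv
    have h1 : Submodule.span R (Set.range g) ≤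
        (Submodule.span K (Set.range g)).restrictScalars R :=
      Submodule.span_le_restrictScalars R K _
    have h2 : r • v ∈ Submodule.span K (Set.range g) := h1 hv
    have hr' : algebraMap R K r ≠ 0 := by
      rw [Ne, FaithfulSMul.algebraMap_eq_zero_iff]
      exact hr
    have h3 : v = (algebraMap R K r)⁻¹ • (r • v) := by
      rw [← algebraMap_smul K r v, smul_smul, inv_mul_cancel₀ hr', one_smul]
    rw [h3]
    exact Submodule.smul_mem _ _ h2
  let M : (Fin n → Fin N) → Matrix (Fin n) (Fin n) K := fun J => Matrix.of fun i => g (J i)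
  have hex : ∃ J : Fin n → Fin N, (M J).det ≠ 0 := by
    obtain ⟨f, hf1, hf2, hf3⟩ :=
      Submodule.exists_fun_fin_finrank_span_eq K (Set.range g)
    have hfr : Module.finrank K (Submodule.span K (Set.range g)) = n := by
      rw [hspan, finrank_top]
      simp
    let e : Fin n ≃ Fin (Module.finrank K (Submodule.span K (Set.range g))) := finCongr hfr.symm
    choose J hJ using fun i => hf1 (e i)
    refine ⟨J, ?_⟩
    have hli : LinearIndependent K (M J).row := by
      have : (M J).row = f ∘ e := by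
        funext i
        exact hJ i
      rw [this]
      exact hf3.comp _ e.injective
    rw [Matrix.linearIndependent_rows_iff_isUnit, Matrix.isUnit_iff_isUnit_det] at hli
    exact hli.ne_zero
  -- the least determinant
  obtain ⟨J0, hJ0⟩ := hex
  obtain ⟨J, -, hJmin⟩ := exists_least
    (fun (J J' : {J : Fin n → Fin N // (M J).det ≠ 0}) =>
      InO R π ((M J'.1).det / (M J.1).det))
    (fun J J' => by
      have := inO_total hπ ((M J'.1).det / (M J.1).det) (div_ne_zero J'.2 J.2)
      rwa [inv_div] at this)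
    (fun J J' J'' h1 h2 => by
      have := inO_mul hπ h1 h2
      have h3 : (M J'.1).det / (M J.1).det * ((M J''.1).det / (M J'.1).det)
          = (M J''.1).det / (M J.1).det := by
        have := J'.2
        field_simp
      rwa [h3] at this)
    Finset.univ ⟨⟨J0, hJ0⟩, Finset.mem_univ _⟩
  obtain ⟨J, hJ⟩ := J
  set A : Matrix (Fin n) (Fin n) K := M J with hA
  have hAdet : IsUnit A.det := isUnit_iff_ne_zero.2 hJ
  -- coordinates of the generators
  have hc : ∀ (p : Fin n × Fin N), InO R π ((g p.2 ᵥ* A⁻¹) p.1) := by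
    rintro ⟨i, j⟩
    rw [vecMul_inv_apply]
    have h1 : A.updateRow i (g j) = M (Function.update J i j) := by
      ext a b
      simp only [hA, M, Matrix.updateRow_apply, Matrix.of_apply, Function.update_apply]
      split_ifs <;> rfl
    by_cases h0 : (M (Function.update J i j)).det = 0
    · simp only [h1, h0, zero_div]
      exact inO_zero hπ
    · have := hJmin ⟨Function.update J i j, h0⟩ (Finset.mem_univ _)
      simpa only [h1] using this
  obtain ⟨s, hs, hsR⟩ := inO_common hπ _ hc
  -- the dual basis vectors, multiplied by s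
  let E : Fin n → Fin n → K := fun i k => algebraMap R K s * (A⁻¹ k i / d k)
  have hE : ∀ i v, bK d (E i) v = algebraMap R K s * (v ᵥ* A⁻¹) i := by
    intro i v
    simp only [bK, E, Matrix.vecMul, dotProduct, Finset.mul_sum]
    refine Finset.sum_congr rfl fun k _ => ?_
    have := hd k
    field_simp
  have hEg : ∀ i, ∀ v ∈ Λ, IntK R (bK d (E i) v) := by
    intro i v hv
    rw [← hg] at hv
    induction hv using Submodule.span_induction with
    | mem x hx =>
      obtain ⟨j, rfl⟩ := hx
      rw [hE]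
      exact hsR (i, j)
    | zero =>
      rw [hE]
      simpa using (intK_zero (R := R) (K := K))
    | add x y _ _ hx hy =>
      rw [hE] at hx hy ⊢
      rw [Matrix.add_vecMul, Pi.add_apply, mul_add]
      exact intK_add hx hy
    | smul r x _ hx =>
      rw [hE] at hx ⊢
      rw [← algebraMap_smul K r x, Matrix.smul_vecMul, Pi.smul_apply, smul_eq_mul,
        mul_left_comm]
      exact intK_smul r hx
  have hEw : ∀ i, ∃ r : R, algebraMap R K r = algebraMap R K s * (w ᵥ* A⁻¹) i := by
    intro i
    have := hw (E i) (hEg i)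
    rwa [hE] at this
  choose r hr using hEw
  refine ⟨s, hs, ?_⟩
  have hfin : s • w = ∑ i, r i • g (J i) := by
    have h1 : w = (w ᵥ* A⁻¹) ᵥ* A := by
      rw [Matrix.vecMul_vecMul, Matrix.nonsing_inv_mul _ hAdet, Matrix.vecMul_one]
    funext k
    have h2 : w k = ∑ i, (w ᵥ* A⁻¹) i * g (J i) k := by
      conv_lhs => rw [h1]
      rfl
    rw [Pi.smul_apply, Finset.sum_apply, Algebra.smul_def, h2, Finset.mul_sum]
    refine Finset.sum_congr rfl fun i _ => ?_
    rw [Pi.smul_apply, Algebra.smul_def, hr, mul_assoc]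
  rw [hfin]
  exact Submodule.sum_mem _ fun i _ => Submodule.smul_mem _ _ (hgmem _)

end Pool.Agent.Helper67.PY
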